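import Pool.Agent.H20.RCC.Stmts

/-!
Row ENC of the board `rcc`.
-/

set_option autoImplicit false

namespace Pool.RCC

theorem ENC_thm : ENCStmt := by
  intro v
  have h1 := min_le_right (v 1) 2
  have h2 := min_le_right (v 2) 2
  have h3 := min_le_right (v 3) 2
  have h4 := min_le_right (v 4) 2
  have h5 := min_le_right (v 5) 2
  have h6 := min_le_right (v 6) 2
  have h7 := min_le_right (v 7) 2
  have h8 := min_le_right (v 8) 2
  have h9 := min_le_right (v 9) 2
  have hlt : enc v < 262144 := by
    unfold enc
    omega
  have hgt : ∀ d, 1 ≤ d → d ≤ 9 → gt d (enc v) = min (v d) 2 := by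
    intro d hd1 hd9
    unfold enc gt
    interval_cases d
    all_goals
      generalize min (v 1) 2 = a1 at *
      generalize min (v 2) 2 = a2 at *
      generalize min (v 3) 2 = a3 at *
      generalize min (v 4) 2 = a4 at *
      generalize min (v 5) 2 = a5 at *
      generalize min (v 6) 2 = a6 at *
      generalize min (v 7) 2 = a7 at *
      generalize min (v 8) 2 = a8 at *
      generalize min (v 9) 2 = a9 at *
      norm_num
      omega
  refine ⟨hlt, hgt, ⟨by norm_num; exact hlt, fun d hd1 hd9 => Or.inr (hgt d hd1 hd9)⟩, ?_, ?_⟩
  · intro a ha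
    unfold fin9
    rw [List.all_eq_true]
    intro i hi
    have hi' : i < 9 := List.mem_range.1 hi
    have := ha.2 (i + 1) (by omega) (by omega)
    unfold gt at this
    rw [Nat.add_sub_cancel] at this
    rcases this with h | h
    · simp [h]
    · simp [h]
  · intro v' h
    unfold enc
    rw [h 1 (by norm_num) (by norm_num), h 2 (by norm_num) (by norm_num),
      h 3 (by norm_num) (by norm_num), h 4 (by norm_num) (by norm_num),
      h 5 (by norm_num) (by norm_num), h 6 (by norm_num) (by norm_num),
      h 7 (by norm_num) (by norm_num), h 8 (by norm_num) (by norm_num),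
      h 9 (by norm_num) (by norm_num)]

end Pool.RCC
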