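import Pool.Agent.H20.RCC.Stmts

/-!
Row OKS of the board `rcc`.
-/

set_option autoImplicit false

namespace Pool.RCC

theorem OKS_thm : OKSStmt := by
  intro k δ v _
  refine ⟨?_, ?_, ?_, ?_, ?_⟩
  · unfold nk
    omega
  · unfold stp
    rw [if_neg]
    exact fun h => h.1 rfl
  · intro d hd
    unfold stp
    rw [if_neg]
    intro h
    have := h.2.1
    omega
  · unfold stp
    rw [if_neg]
    exact fun h => h.2.2.1 rfl
  · unfold stp
    rw [if_neg]
    exact fun h => h.2.2.2 rfl

end Pool.RCC
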